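import Mathlib

open Polynomial

namespace Pool.Agent.Helper12.VW

/-- Multiplying a polynomial by a nonzero constant does not change its Galois group. -/
theorem gal_C_mul (c : ℚ) (hc : c ≠ 0) (f : ℚ[X]) :
    Nonempty ((C c * f).Gal ≃* f.Gal) := by
  classical
  have h1 : IsSplittingField ℚ (C c * f).SplittingField f := by
    have hs := SplittingField.splits (C c * f)
    have ha := SplittingField.adjoin_rootSet (C c * f)
    constructor
    · rw [Polynomial.map_mul, map_C] at hs
      have hne : C ((algebraMap ℚ (C c * f).SplittingField) c) ≠ 0 := by
        rw [Ne, C_eq_zero, map_eq_zero]; exact hc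
      by_cases hf : f = 0
      · rw [hf]; simp
      · refine hs.of_dvd ?_ (dvd_mul_left _ _)
        apply mul_ne_zero hne
        exact (Polynomial.map_ne_zero hf)
    · have : (C c * f).rootSet (C c * f).SplittingField = f.rootSet (C c * f).SplittingField := by
        rw [rootSet_def, rootSet_def, aroots_C_mul _ hc]
      rw [← this]; exact ha
  exact ⟨AlgEquiv.autCongr (IsSplittingField.algEquiv (C c * f).SplittingField f)⟩

end Pool.Agent.Helper12.VW
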