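import Pool.Agent.Helper12.VW.Defs

open Polynomial

namespace Pool.Agent.Helper12.VW

/-- The threshold exponent for the discriminant. -/
noncomputable def thr (m : ℕ) : ℝ := if m = 1 then 2.02 else 1.01 / ((m : ℝ) - 1)

theorem InInd.mono {n : ℕ} {a : Fin (n + 1) → ℤ} {p k k' : ℕ} (h : InInd a p k') (hk : k ≤ k') :
    InInd a p k := by
  obtain ⟨hp, h⟩ := h
  refine ⟨hp, ?_⟩
  rcases h with h | h
  · exact Or.inl h
  · exact Or.inr (by omega)

end Pool.Agent.Helper12.VW
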