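import Mathlib

/-!
Integer polynomials whose Galois group is not the full symmetric group
(non-monic van der Waerden problem): common definitions.
-/

open Polynomial

namespace Pool.Agent.Helper12.VW

/-- The polynomial with coefficient vector `a`: `a i` is the coefficient of `X ^ i`. -/
noncomputable def toPoly {R : Type*} [Semiring R] {n : ℕ} (a : Fin (n + 1) → R) : R[X] :=
  ∑ i : Fin (n + 1), C (a i) * X ^ (i : ℕ)

/-- Integer vectors of length `n + 1` with entries of absolute value at most `H`. -/
noncomputable def Box (n H : ℕ) : Finset (Fin (n + 1) → ℤ) :=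
  Fintype.piFinset fun _ => Finset.Icc (-(H : ℤ)) (H : ℤ)

/-- The number of distinct zeros, on the projective line over an algebraic closure of `ZMod p`,
of the binary form of degree `n` with coefficient vector `v`. -/
noncomputable def nroots {n p : ℕ} [Fact p.Prime] (v : Fin (n + 1) → ZMod p) : ℕ :=
  ((toPoly v).rootSet (AlgebraicClosure (ZMod p))).ncard + if v (Fin.last n) = 0 then 1 else 0

/-- Binary forms of degree `n` over `ZMod p` of index at least `k` (zero, or at most `n - k`
distinct zeros). -/
def Ind (n p k : ℕ) [Fact p.Prime] : Set (Fin (n + 1) → ZMod p) := {v | v = 0 ∨ nroots v + k ≤ n}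

/-- `p` is prime and the reduction of `a` modulo `p` has index at least `k`. -/
def InInd {n : ℕ} (a : Fin (n + 1) → ℤ) (p k : ℕ) : Prop :=
  ∃ hp : p.Prime, (fun i => (a i : ZMod p)) ∈ @Ind n p k ⟨hp⟩

/-- A number field without intermediate fields. -/
def IsPrim (L : Type) [Field L] [NumberField L] : Prop :=
  ∀ F : IntermediateField ℚ L, F = ⊥ ∨ F = ⊤

/-- `toPoly a` is its leading coefficient times the norm of a monic polynomial of degree `m`
over `L`. -/
def NormForm {n : ℕ} (a : Fin (n + 1) → ℤ) (L : Type) [Field L] [NumberField L] (m : ℕ) : Prop :=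
  ∃ g : L[X], g.Monic ∧ g.natDegree = m ∧
    (toPoly a).map (Int.castRingHom ℂ) = C ((a (Fin.last n) : ℤ) : ℂ) * ∏ τ : L →+* ℂ, g.map τ

/-- The rational polynomial. -/
noncomputable def ratPoly {n : ℕ} (a : Fin (n + 1) → ℤ) : ℚ[X] := (toPoly a).map (Int.castRingHom ℚ)

/-- The exponent of `p` in the discriminant of `L`. -/
noncomputable def vD (L : Type) [Field L] [NumberField L] (p : ℕ) : ℕ :=
  (NumberField.discr L).natAbs.factorization p

/-- The sum of the residue degrees of the primes of `K` above `p`
(the residue degree of `P` is the exponent of `p` in the absolute norm of `P`). -/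
noncomputable def resDim (K : Type) [Field K] [NumberField K] (p : ℕ) : ℕ :=
  ∑ P ∈ IsDedekindDomain.primesOverFinset (Ideal.span {(p : ℤ)}) (NumberField.RingOfIntegers K),
    (Ideal.absNorm P).factorization p

end Pool.Agent.Helper12.VW
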