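import Pool.Agent.Helper12.VW.Content
import Pool.Agent.Helper12.VW.Thr
import Pool.Agent.Helper12.VW.GalC
import Pool.Agent.Helper14.VW.Different
import Pool.Agent.Helper21.VW.A7
import Pool.Agent.Helper93.VW.LargeModulus
import Pool.Agent.Helper93.VW.BoxCount
import Pool.Agent.Helper87.VW.Sums
import Pool.Agent.Helper10.VW.CardNormForm
import Pool.Agent.Helper63.VW.G3
import Pool.Agent.Helper33.VW.HeightCoeff
import Pool.Agent.Helper93.VW.IdealCount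
import Pool.Agent.Helper56.VW.G7
import Pool.Agent.Helper56.VW.F23
import Pool.Agent.Helper59.VW.Refined
import Pool.Agent.Helper33.VW.FieldCover
import Pool.Agent.Helper33.VW.ExistsSmallPoly
import Pool.Agent.Helper86.VW.CaseA
import Pool.Agent.Helper11.VW.Reducible
import Pool.Agent.Helper11.VW.CubicDisc
import Pool.Agent.Helper87.VW.CubicCount
import Pool.Agent.Helper15.VW.N4

open Polynomial NumberField

namespace Pool.Agent.Helper12.VW

/-- VW-G8 -/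
theorem card_normForm_le (k m : ℕ) (hk : 2 ≤ k) (hm : 1 ≤ m) (n : ℕ) (hn : k * m = n) (ε : ℝ)
    (hε : 0 < ε) : ∃ C : ℝ, 0 < C ∧
    ∀ (L : Type) [Field L] [NumberField L], Module.finrank ℚ L = k → IsPrim L →
      ∀ H : ℕ, 1 ≤ H →
      ({a ∈ (Box n H : Set (Fin (n + 1) → ℤ)) | a (Fin.last n) ≠ 0 ∧ (toPoly a).IsPrimitive ∧
        NormForm a L m}.ncard : ℝ) ≤ C * (H : ℝ) ^ (1 + ε) *
          ((H : ℝ) ^ (1 / (k : ℝ)) + H * |(discr L : ℝ)| ^ (-(1 / (2 * (k : ℝ))))) ^ m :=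
  card_normForm_le_of absNorm_denominator_le height_coeff_le card_ideals_le card_elements_le
    k m hk hm n hn ε hε

/-- VW-F2 -/
theorem field_cover4 (ε : ℝ) (hε : 0 < ε) : ∃ C : ℝ, 0 < C ∧ ∀ X : ℝ, 1 ≤ X →
    ∃ T : Finset (Fin (4 + 1) → ℤ), (T.card : ℝ) ≤ C * X ^ (1 + ε) ∧
      ∀ (L : Type) [Field L] [NumberField L], Module.finrank ℚ L = 4 → IsPrim L →
        (∀ p : ℕ, p.Prime → vD L p ≠ 1) →
        X ≤ |(discr L : ℝ)| → |(discr L : ℝ)| ≤ 2 * X →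
        ∃ b ∈ T, Irreducible (ratPoly b) ∧ b (Fin.last 4) = 1 ∧
          ∃ θ : L, aeval θ (ratPoly b) = 0 :=
  F23.field_cover4_of (exists_small_poly 4 (by norm_num)) (discr_small_primes 4 4)
    (fun a ha hirr K _ _ hK θ hθ p hp hnp =>
      index_of_root_field (by norm_num) a ha hirr K hK θ hθ p hp hnp) ε
    (fun c₀ hc => refined4 ε c₀ hε hc)

/-- VW-F3 -/
theorem field_cover5 (ε : ℝ) (hε : 0 < ε) : ∃ C : ℝ, 0 < C ∧ ∀ X : ℝ, 1 ≤ X →
    ∃ T : Finset (Fin (5 + 1) → ℤ), (T.card : ℝ) ≤ C * X ^ (3 / 2 + ε : ℝ) ∧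
      ∀ (L : Type) [Field L] [NumberField L], Module.finrank ℚ L = 5 → IsPrim L →
        (∀ p : ℕ, p.Prime → vD L p ≠ 1) →
        X ≤ |(discr L : ℝ)| → |(discr L : ℝ)| ≤ 2 * X →
        ∃ b ∈ T, Irreducible (ratPoly b) ∧ b (Fin.last 5) = 1 ∧
          ∃ θ : L, aeval θ (ratPoly b) = 0 :=
  F23.field_cover5_of (exists_small_poly 5 (by norm_num)) (discr_small_primes 5 5)
    (fun a ha hirr K _ _ hK θ hθ p hp hnp =>
      index_of_root_field (by norm_num) a ha hirr K hK θ hθ p hp hnp) ε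
    (fun c₀ hc => refined5 ε c₀ hε hc)

/-- VW-F4 -/
theorem caseA (k m n : ℕ) (hk : 2 ≤ k) (hm : 1 ≤ m) (hkm : k * m = n) (hn : 4 ≤ n) (c : ℝ)
    (hc : 0 < c) : ∃ C : ℝ, 0 < C ∧ ∀ H : ℕ, 1 ≤ H →
    ({a ∈ (Box n H : Set (Fin (n + 1) → ℤ)) | a (Fin.last n) ≠ 0 ∧ (toPoly a).IsPrimitive ∧
      ∃ (L : Type) (_ : Field L) (_ : NumberField L), Module.finrank ℚ L = k ∧ IsPrim L ∧
        NormForm a L m ∧ (m = 1 → ∀ p : ℕ, p.Prime → vD L p ≠ 1) ∧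
        |(discr L : ℝ)| ≤ c * (H : ℝ) ^ thr m}.ncard : ℝ) ≤ C * (H : ℝ) ^ n :=
  caseA_of card_normForm_le field_cover field_cover4 field_cover5 k m n hk hm hkm hn c hc

end Pool.Agent.Helper12.VW
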