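import Pool.Agent.Helper12.VW.Assembly


open Polynomial NumberField

namespace Pool.Agent.Helper12.VW

/-- The finite set of relevant moduli. -/
noncomputable def modSet (n m H : ℕ) : Finset ℕ := by
  classical
  exact (Finset.range (H ^ ((n + 3) * n) + 1)).filter (fun D => D ≠ 0 ∧
    (H : ℝ) ^ thr m < D ∧ (∀ p ∈ D.primeFactors, n < p ∧ m * D.factorization p ≤ n ∧
      (m = 1 → 2 ≤ D.factorization p)) ∧ (∏ p ∈ D.primeFactors, p) ^ (n + 2) ≤ H ^ (n + 3))

theorem le_rad_pow {D n : ℕ} (hD : D ≠ 0) (h : ∀ p ∈ D.primeFactors, D.factorization p ≤ n) :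
    D ≤ (∏ p ∈ D.primeFactors, p) ^ n := by
  conv_lhs => rw [← Nat.prod_factorization_pow_eq_self hD]
  rw [Finsupp.prod, Nat.support_factorization, ← Finset.prod_pow]
  apply Finset.prod_le_prod'
  intro p hp
  exact Nat.pow_le_pow_right (Nat.prime_of_mem_primeFactors hp).pos (h p hp)

theorem modSet_sum (n m : ℕ) (hm : 1 ≤ m) (B : ℝ) (hB : 1 ≤ B) : ∃ C : ℝ, 0 < C ∧
    ∀ H : ℕ, 1 ≤ H →
      ∑ D ∈ modSet n m H, B ^ D.primeFactors.card / (D : ℝ) ^ m ≤ C * (H : ℝ) ^ (-1 : ℝ) := by
  classical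
  rcases Nat.eq_or_lt_of_le hm with h1 | h2
  · subst h1
    obtain ⟨C, hC, h⟩ := sum_squarefull B (1 / 1000) hB (by norm_num)
    refine ⟨C, hC, fun H hH => ?_⟩
    have hH1 : (1 : ℝ) ≤ H := by exact_mod_cast hH
    have hX : (1 : ℝ) ≤ (H : ℝ) ^ (2.02 : ℝ) := Real.one_le_rpow hH1 (by norm_num)
    have h3 := h ((H : ℝ) ^ (2.02 : ℝ)) (modSet n 1 H) hX (by
      intro D hD
      unfold modSet at hD
      rw [Finset.mem_filter] at hD
      refine ⟨?_, fun p hp => (hD.2.2.2.1 p hp).2.2 rfl⟩
      have := hD.2.2.1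
      unfold thr at this
      rw [if_pos rfl] at this
      exact this.le)
    simp only [pow_one]
    refine h3.trans ?_
    apply mul_le_mul_of_nonneg_left _ hC.le
    rw [← Real.rpow_mul (by positivity)]
    apply Real.rpow_le_rpow_of_exponent_le hH1
    norm_num
  · obtain ⟨C, hC, h⟩ := sum_powers m h2 B (1 / 1000) hB (by norm_num)
    refine ⟨C, hC, fun H hH => ?_⟩
    have hH1 : (1 : ℝ) ≤ H := by exact_mod_cast hH
    have hm2 : (2 : ℝ) ≤ m := by exact_mod_cast h2
    have hX : (1 : ℝ) ≤ (H : ℝ) ^ (1.01 / ((m : ℝ) - 1)) :=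
      Real.one_le_rpow hH1 (div_nonneg (by norm_num) (by linarith))
    have h3 := h ((H : ℝ) ^ (1.01 / ((m : ℝ) - 1))) (modSet n m H) hX (by
      intro D hD
      unfold modSet at hD
      rw [Finset.mem_filter] at hD
      have := hD.2.2.1
      unfold thr at this
      rw [if_neg (by omega)] at this
      exact this.le)
    refine h3.trans ?_
    apply mul_le_mul_of_nonneg_left _ hC.le
    rw [← Real.rpow_mul (by positivity)]
    apply Real.rpow_le_rpow_of_exponent_le hH1
    have hpos : (0 : ℝ) < (m : ℝ) - 1 := by linarith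
    rw [div_mul_eq_mul_div, div_le_iff₀ hpos]
    nlinarith

/-- VW-F5 -/
theorem caseB' (k m n : ℕ) (_hk : 2 ≤ k) (hm : 1 ≤ m) (hkm : k * m = n) (hn : 3 ≤ n) :
    ∃ C : ℝ, 0 < C ∧ ∀ H : ℕ, 1 ≤ H →
    ({a ∈ (Box n H : Set (Fin (n + 1) → ℤ)) | a (Fin.last n) ≠ 0 ∧
      ∃ (L : Type) (_ : Field L) (_ : NumberField L), Module.finrank ℚ L = k ∧
        (∀ p : ℕ, p.Prime → n < p → InInd a p (m * vD L p)) ∧
        (m = 1 → ∀ p : ℕ, p.Prime → vD L p ≠ 1) ∧
        (H : ℝ) ^ thr m <
          ∏ p ∈ (discr L).natAbs.primeFactors.filter (n < ·), (p : ℝ) ^ vD L p}.ncard : ℝ)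
      ≤ C * (H : ℝ) ^ n := by
  classical
  obtain ⟨A, B, hA, hB, hbox⟩ := box_count n (by omega)
  obtain ⟨CE, hCE, hE⟩ := large_modulus n hn
  obtain ⟨CS, hCS, hS⟩ := modSet_sum n m hm B hB
  refine ⟨A * CS + CE, by positivity, fun H hH => ?_⟩
  have hH1 : (1 : ℝ) ≤ H := by exact_mod_cast hH
  have hfin : ∀ (R : (Fin (n + 1) → ℤ) → Prop),
      {a ∈ (Box n H : Set (Fin (n + 1) → ℤ)) | R a}.Finite := fun R =>
    (Box n H).finite_toSet.subset (fun a ha => ha.1)
  have hsub : {a ∈ (Box n H : Set (Fin (n + 1) → ℤ)) | a (Fin.last n) ≠ 0 ∧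
      ∃ (L : Type) (_ : Field L) (_ : NumberField L), Module.finrank ℚ L = k ∧
        (∀ p : ℕ, p.Prime → n < p → InInd a p (m * vD L p)) ∧
        (m = 1 → ∀ p : ℕ, p.Prime → vD L p ≠ 1) ∧
        (H : ℝ) ^ thr m <
          ∏ p ∈ (discr L).natAbs.primeFactors.filter (n < ·), (p : ℝ) ^ vD L p} ⊆
      (⋃ D ∈ modSet n m H, {a ∈ (Box n H : Set (Fin (n + 1) → ℤ)) |
        ∀ p ∈ D.primeFactors, InInd a p (m * D.factorization p)}) ∪
      {a ∈ (Box n H : Set (Fin (n + 1) → ℤ)) | a (Fin.last n) ≠ 0 ∧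
        ∃ q : ℕ, Squarefree q ∧ H ^ (n + 3) < q ^ (n + 2) ∧
          ∀ p ∈ q.primeFactors, n < p ∧ InInd a p 2} := by
    rintro a ⟨haB, hlast, L, _, _, hkL, hInd, h1, hlt⟩
    set P := (discr L).natAbs.primeFactors.filter (n < ·) with hP
    have hPp : ∀ p ∈ P, p.Prime := fun p hp =>
      Nat.prime_of_mem_primeFactors (Finset.mem_filter.mp hp).1
    have hPn : ∀ p ∈ P, n < p := fun p hp => (Finset.mem_filter.mp hp).2
    have hv1 : ∀ p ∈ P, 1 ≤ vD L p := by
      intro p hp
      have h3 := (Finset.mem_filter.mp hp).1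
      unfold vD
      exact (Nat.Prime.factorization_pos_of_dvd (hPp p hp)
        (Int.natAbs_ne_zero.mpr (discr_ne_zero L)) (Nat.dvd_of_mem_primeFactors h3))
    have hv2 : ∀ p ∈ P, 2 ≤ m * vD L p := by
      intro p hp
      have h4 := hv1 p hp
      rcases Nat.eq_or_lt_of_le hm with h5 | h5
      · have h6 := h1 h5.symm p (hPp p hp)
        rw [← h5, one_mul]
        omega
      · calc 2 = 2 * 1 := by norm_num
          _ ≤ m * vD L p := Nat.mul_le_mul h5 h4
    by_cases hq : (∏ p ∈ P, p) ^ (n + 2) ≤ H ^ (n + 3)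
    · left
      set D := ∏ p ∈ P, p ^ vD L p with hD
      have hfac : D.factorization = (Finsupp.onFinset P (fun p => if p ∈ P then vD L p else 0)
          (by intro p hp; by_contra hne; rw [if_neg hne] at hp; exact hp rfl)) := by
        rw [hD]
        ext p
        rw [Nat.factorization_prod (fun q hq => pow_ne_zero _ (hPp q hq).ne_zero)]
        rw [Finsupp.finsetSum_apply]
        simp only [Finsupp.onFinset_apply]
        by_cases hp : p ∈ P
        · rw [if_pos hp, Finset.sum_eq_single p]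
          · rw [Nat.Prime.factorization_pow (hPp p hp)]; simp
          · intro q hq hqp
            rw [Nat.Prime.factorization_pow (hPp q hq)]
            simp [hqp]
          · intro h; exact absurd hp h
        · rw [if_neg hp]
          apply Finset.sum_eq_zero
          intro q hq
          rw [Nat.Prime.factorization_pow (hPp q hq)]
          have : q ≠ p := fun h => hp (h ▸ hq)
          simp [this]
      have hD0 : D ≠ 0 := Finset.prod_ne_zero_iff.mpr fun p hp => pow_ne_zero _ (hPp p hp).ne_zero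
      have hDP : D.primeFactors = P := by
        rw [← Nat.support_factorization, hfac]
        ext p
        simp only [Finsupp.mem_support_iff, Finsupp.onFinset_apply]
        constructor
        · intro h
          by_contra hne
          rw [if_neg hne] at h
          exact h rfl
        · intro h
          rw [if_pos h]
          have := hv1 p h
          omega
      have hDf : ∀ p ∈ P, D.factorization p = vD L p := by
        intro p hp
        rw [hfac]
        simp only [Finsupp.onFinset_apply]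
        rw [if_pos hp]
      have hvle : ∀ p ∈ P, m * vD L p ≤ n := by
        intro p hp
        have := Fact.mk (hPp p hp)
        have h6 : k ≤ n := by rw [← hkm]; exact Nat.le_mul_of_pos_right k (by omega)
        have h7 := vD_add_sum_inertia_le L p (by rw [hkL]; have := hPn p hp; omega)
        rw [hkL] at h7
        calc m * vD L p ≤ m * k := Nat.mul_le_mul_left m (by omega)
          _ = n := by rw [mul_comm]; exact hkm
      simp only [Set.mem_iUnion]
      refine ⟨D, ?_, haB, ?_⟩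
      · unfold modSet
        rw [Finset.mem_filter, Finset.mem_range]
        refine ⟨?_, hD0, ?_, ?_, ?_⟩
        · have h8 : D ≤ (∏ p ∈ D.primeFactors, p) ^ n := by
            apply le_rad_pow hD0
            intro p hp
            rw [hDP] at hp
            rw [hDf p hp]
            have := hvle p hp
            calc vD L p = 1 * vD L p := (one_mul _).symm
              _ ≤ m * vD L p := Nat.mul_le_mul_right _ hm
              _ ≤ n := this
          rw [hDP] at h8
          have h9 : (∏ p ∈ P, p) ≤ H ^ (n + 3) := by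
            have hpos : 1 ≤ ∏ p ∈ P, p := Finset.prod_pos fun p hp => (hPp p hp).pos
            calc (∏ p ∈ P, p) ≤ (∏ p ∈ P, p) ^ (n + 2) := Nat.le_self_pow (by omega) _
              _ ≤ _ := hq
          have h10 : (∏ p ∈ P, p) ^ n ≤ (H ^ (n + 3)) ^ n := Nat.pow_le_pow_left h9 n
          rw [← pow_mul] at h10
          omega
        · rw [hD]; push_cast; exact hlt
        · intro p hp
          rw [hDP] at hp
          rw [hDf p hp]
          refine ⟨hPn p hp, hvle p hp, fun hm1 => ?_⟩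
          have := hv2 p hp
          rw [hm1, one_mul] at this
          exact this
        · rw [hDP]; exact hq
      · intro p hp
        rw [hDP] at hp
        rw [hDf p hp]
        exact hInd p (hPp p hp) (hPn p hp)
    · right
      push Not at hq
      refine ⟨haB, hlast, ∏ p ∈ P, p, ?_, hq, ?_⟩
      · refine Finset.squarefree_prod_of_pairwise_isCoprime ?_ ?_
        · intro p hp q hq hpq
          exact Nat.coprime_iff_isRelPrime.mp ((Nat.coprime_primes (hPp p hp) (hPp q hq)).mpr hpq)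
        · intro p hp; exact (hPp p hp).squarefree
      · intro p hp
        have hpP : p ∈ P := by
          have h3 := Nat.prime_of_mem_primeFactors hp
          have h4 := Nat.dvd_of_mem_primeFactors hp
          obtain ⟨q, hq, hpq⟩ := (h3.prime.dvd_finsetProd_iff _).mp h4
          rw [(Nat.prime_dvd_prime_iff_eq h3 (hPp q hq)).mp hpq]
          exact hq
        exact ⟨hPn p hpP, (hInd p (hPp p hpP) (hPn p hpP)).mono (hv2 p hpP)⟩
  have hU : ∀ D ∈ modSet n m H, (({a ∈ (Box n H : Set (Fin (n + 1) → ℤ)) |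
        ∀ p ∈ D.primeFactors, InInd a p (m * D.factorization p)}.ncard : ℕ) : ℝ) ≤
        A * (H : ℝ) ^ (n + 1) * (B ^ D.primeFactors.card / (D : ℝ) ^ m) := by
    intro D hD
    unfold modSet at hD
    rw [Finset.mem_filter] at hD
    obtain ⟨_, hD0, _, hp3, hp4⟩ := hD
    have := hbox H hH D.primeFactors (fun p => m * D.factorization p)
      (fun p hp => ⟨Nat.prime_of_mem_primeFactors hp, (hp3 p hp).1, (hp3 p hp).2.1⟩) hp4
    refine this.trans (le_of_eq ?_)
    have hprod : ∏ p ∈ D.primeFactors, (p : ℝ) ^ (m * D.factorization p) = (D : ℝ) ^ m := by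
      have h5 : (D : ℝ) = ∏ p ∈ D.primeFactors, (p : ℝ) ^ D.factorization p := by
        conv_lhs => rw [← Nat.prod_factorization_pow_eq_self hD0]
        rw [Finsupp.prod, Nat.support_factorization]
        push_cast
        rfl
      rw [h5, ← Finset.prod_pow]
      refine Finset.prod_congr rfl fun p _ => ?_
      rw [← pow_mul, mul_comm]
    rw [hprod]
    ring
  have h1 : (({a ∈ (Box n H : Set (Fin (n + 1) → ℤ)) | a (Fin.last n) ≠ 0 ∧
      ∃ (L : Type) (_ : Field L) (_ : NumberField L), Module.finrank ℚ L = k ∧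
        (∀ p : ℕ, p.Prime → n < p → InInd a p (m * vD L p)) ∧
        (m = 1 → ∀ p : ℕ, p.Prime → vD L p ≠ 1) ∧
        (H : ℝ) ^ thr m <
          ∏ p ∈ (discr L).natAbs.primeFactors.filter (n < ·), (p : ℝ) ^ vD L p}.ncard : ℕ) : ℝ) ≤
      ∑ D ∈ modSet n m H, (({a ∈ (Box n H : Set (Fin (n + 1) → ℤ)) |
        ∀ p ∈ D.primeFactors, InInd a p (m * D.factorization p)}.ncard : ℕ) : ℝ) +
      (({a ∈ (Box n H : Set (Fin (n + 1) → ℤ)) | a (Fin.last n) ≠ 0 ∧
        ∃ q : ℕ, Squarefree q ∧ H ^ (n + 3) < q ^ (n + 2) ∧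
          ∀ p ∈ q.primeFactors, n < p ∧ InInd a p 2}.ncard : ℕ) : ℝ) := by
    have h2 : {a ∈ (Box n H : Set (Fin (n + 1) → ℤ)) | a (Fin.last n) ≠ 0 ∧
      ∃ (L : Type) (_ : Field L) (_ : NumberField L), Module.finrank ℚ L = k ∧
        (∀ p : ℕ, p.Prime → n < p → InInd a p (m * vD L p)) ∧
        (m = 1 → ∀ p : ℕ, p.Prime → vD L p ≠ 1) ∧
        (H : ℝ) ^ thr m <
          ∏ p ∈ (discr L).natAbs.primeFactors.filter (n < ·), (p : ℝ) ^ vD L p}.ncard ≤
      ∑ D ∈ modSet n m H, {a ∈ (Box n H : Set (Fin (n + 1) → ℤ)) |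
        ∀ p ∈ D.primeFactors, InInd a p (m * D.factorization p)}.ncard +
      {a ∈ (Box n H : Set (Fin (n + 1) → ℤ)) | a (Fin.last n) ≠ 0 ∧
        ∃ q : ℕ, Squarefree q ∧ H ^ (n + 3) < q ^ (n + 2) ∧
          ∀ p ∈ q.primeFactors, n < p ∧ InInd a p 2}.ncard := by
      refine (Set.ncard_le_ncard hsub ?_).trans ?_
      · exact (Set.Finite.biUnion (Finset.finite_toSet _) (fun c _ => hfin _)).union (hfin _)
      · refine (Set.ncard_union_le _ _).trans ?_
        gcongr
        exact Finset.set_ncard_biUnion_le _ _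
    exact_mod_cast h2
  refine h1.trans ?_
  have h3 := Finset.sum_le_sum hU
  rw [← Finset.mul_sum] at h3
  have h4 := hS H hH
  have h5 : A * (H : ℝ) ^ (n + 1) * ∑ D ∈ modSet n m H, B ^ D.primeFactors.card / (D : ℝ) ^ m ≤
      A * CS * (H : ℝ) ^ n := by
    calc A * (H : ℝ) ^ (n + 1) * ∑ D ∈ modSet n m H, B ^ D.primeFactors.card / (D : ℝ) ^ m
        ≤ A * (H : ℝ) ^ (n + 1) * (CS * (H : ℝ) ^ (-1 : ℝ)) :=
          mul_le_mul_of_nonneg_left h4 (by positivity)
      _ = A * CS * (H : ℝ) ^ n := by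
        rw [Real.rpow_neg_one, pow_succ]
        have : (H : ℝ) ≠ 0 := by positivity
        field_simp
  have h6 := hE H hH
  calc _ ≤ A * CS * (H : ℝ) ^ n + CE * (H : ℝ) ^ n := add_le_add (h3.trans h5) h6
    _ = _ := by ring

end Pool.Agent.Helper12.VW
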