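import Pool.Agent.Helper12.VW.Defs

open Polynomial

namespace Pool.Agent.Helper12.VW

theorem toPoly_coeff {R : Type*} [Semiring R] {n : ℕ} (a : Fin (n + 1) → R) (i : Fin (n + 1)) :
    (toPoly a).coeff i = a i := by
  unfold toPoly
  rw [finsetSum_coeff]
  simp only [coeff_C_mul, coeff_X_pow]
  rw [Finset.sum_eq_single i]
  · simp
  · intro j _ hj
    rw [if_neg, mul_zero]
    intro h
    exact hj (Fin.ext h.symm)
  · intro h; exact absurd (Finset.mem_univ _) h

theorem toPoly_coeff_of_lt {R : Type*} [Semiring R] {n : ℕ} (a : Fin (n + 1) → R) (i : ℕ)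
    (hi : n < i) : (toPoly a).coeff i = 0 := by
  unfold toPoly
  rw [finsetSum_coeff]
  simp only [coeff_C_mul, coeff_X_pow]
  apply Finset.sum_eq_zero
  intro j _
  rw [if_neg, mul_zero]
  intro h
  have := j.2
  omega

theorem toPoly_natDegree_le {R : Type*} [Semiring R] {n : ℕ} (a : Fin (n + 1) → R) :
    (toPoly a).natDegree ≤ n := by
  rw [natDegree_le_iff_coeff_eq_zero]
  intro N hN
  exact toPoly_coeff_of_lt a N hN

theorem toPoly_injective {R : Type*} [Semiring R] {n : ℕ} :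
    Function.Injective (toPoly (R := R) (n := n)) := by
  intro a b h
  funext i
  rw [← toPoly_coeff a i, ← toPoly_coeff b i, h]

theorem toPoly_smul {n : ℕ} (c : ℤ) (a : Fin (n + 1) → ℤ) :
    toPoly (fun i => c * a i) = C c * toPoly a := by
  unfold toPoly
  rw [Finset.mul_sum]
  refine Finset.sum_congr rfl fun i _ => ?_
  rw [C_mul, mul_assoc]

theorem toPoly_of_natDegree_le {R : Type*} [Semiring R] {n : ℕ} (f : R[X]) (hf : f.natDegree ≤ n) :
    toPoly (fun i : Fin (n + 1) => f.coeff i) = f := by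
  ext j
  by_cases hj : j < n + 1
  · exact toPoly_coeff (fun i : Fin (n + 1) => f.coeff i) ⟨j, hj⟩
  · rw [toPoly_coeff_of_lt _ _ (by omega), coeff_eq_zero_of_natDegree_lt (by omega)]

theorem mem_Box {n H : ℕ} {a : Fin (n + 1) → ℤ} : a ∈ Box n H ↔ ∀ i, |a i| ≤ (H : ℤ) := by
  unfold Box
  simp only [Fintype.mem_piFinset, Finset.mem_Icc, abs_le]

theorem exists_content {n : ℕ} (a : Fin (n + 1) → ℤ) (ha : a ≠ 0) :
    ∃ (c : ℕ) (b : Fin (n + 1) → ℤ), 1 ≤ c ∧ (∀ i, a i = c * b i) ∧ (toPoly b).IsPrimitive := by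
  have hne : toPoly a ≠ 0 := by
    intro h
    apply ha
    apply toPoly_injective (R := ℤ)
    rw [h]
    unfold toPoly
    simp
  set f := toPoly a with hf
  have hcont : f.content ≠ 0 := by
    rw [Ne, content_eq_zero_iff]; exact hne
  have hnn : 0 ≤ f.content := Int.nonneg_of_normalize_eq_self f.normalize_content
  refine ⟨f.content.natAbs, fun i => f.primPart.coeff i, ?_, ?_, ?_⟩
  · have := Int.natAbs_pos.mpr hcont
    omega
  · intro i
    have h1 : f.coeff i = a i := toPoly_coeff a i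
    rw [← h1]
    conv_lhs => rw [f.eq_C_content_mul_primPart]
    rw [coeff_C_mul]
    congr 1
    exact (Int.natAbs_of_nonneg hnn).symm
  · rw [toPoly_of_natDegree_le]
    · exact f.isPrimitive_primPart
    · rw [natDegree_primPart]; exact toPoly_natDegree_le a

/-- Reduction to primitive polynomials. -/
theorem content_reduction {n : ℕ} (hn : 2 ≤ n) (Q : (Fin (n + 1) → ℤ) → Prop)
    (hQ : ∀ (c : ℕ) (b : Fin (n + 1) → ℤ), 1 ≤ c → Q (fun i => c * b i) → Q b)
    (hQ0 : ∀ a, Q a → a ≠ 0) (C : ℝ) (hC : 0 ≤ C)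
    (h : ∀ H : ℕ, 1 ≤ H →
      ({a ∈ (Box n H : Set (Fin (n + 1) → ℤ)) | (toPoly a).IsPrimitive ∧ Q a}.ncard : ℝ)
        ≤ C * (H : ℝ) ^ n) :
    ∀ H : ℕ, 1 ≤ H →
      ({a ∈ (Box n H : Set (Fin (n + 1) → ℤ)) | Q a}.ncard : ℝ) ≤ (2 * C) * (H : ℝ) ^ n := by
  classical
  intro H hH
  have hfin : ∀ (H' : ℕ) (R : (Fin (n + 1) → ℤ) → Prop),
      {a ∈ (Box n H' : Set (Fin (n + 1) → ℤ)) | R a}.Finite := fun H' R =>
    (Box n H').finite_toSet.subset (fun a ha => ha.1)
  -- cover by images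
  have hcov : {a ∈ (Box n H : Set (Fin (n + 1) → ℤ)) | Q a} ⊆
      ⋃ c ∈ (Finset.Icc 1 H : Finset ℕ), (fun b : Fin (n + 1) → ℤ => fun i => (c : ℤ) * b i) ''
        {a ∈ (Box n (H / c) : Set (Fin (n + 1) → ℤ)) | (toPoly a).IsPrimitive ∧ Q a} := by
    rintro a ⟨haB, haQ⟩
    obtain ⟨c, b, hc, hab, hb⟩ := exists_content a (hQ0 a haQ)
    have haB' := mem_Box.mp (Finset.mem_coe.mp haB)
    have hae : a = fun i => (c : ℤ) * b i := funext hab
    have hbB : ∀ i, |b i| ≤ ((H / c : ℕ) : ℤ) := by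
      intro i
      have h1 := haB' i
      rw [hab i, abs_mul, Nat.abs_cast] at h1
      have h2 : (c : ℤ) * |b i| ≤ H := h1
      have h3 : c * (b i).natAbs ≤ H := by
        zify; exact h2
      have h4 : (b i).natAbs ≤ H / c := by
        rw [Nat.le_div_iff_mul_le (by omega)]; rw [mul_comm]; exact h3
      rw [Int.abs_eq_natAbs]
      exact_mod_cast h4
    have hcH : c ≤ H := by
      by_contra hlt
      push Not at hlt
      have h0 : H / c = 0 := Nat.div_eq_of_lt hlt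
      apply hQ0 a haQ
      rw [hae]
      funext i
      have := hbB i
      rw [h0] at this
      have hb0 : b i = 0 := by
        have := abs_nonneg (b i)
        have h5 : |b i| = 0 := by push_cast at *; omega
        exact abs_eq_zero.mp h5
      simp [hb0]
    simp only [Set.mem_iUnion]
    refine ⟨c, Finset.mem_Icc.mpr ⟨hc, hcH⟩, b, ⟨?_, hb, ?_⟩, hae.symm⟩
    · exact Finset.mem_coe.mpr (mem_Box.mpr hbB)
    · exact hQ c b hc (hae ▸ haQ)
  have h1 : ({a ∈ (Box n H : Set (Fin (n + 1) → ℤ)) | Q a}.ncard : ℝ) ≤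
      ∑ c ∈ Finset.Icc 1 H, (({a ∈ (Box n (H / c) : Set (Fin (n + 1) → ℤ)) |
        (toPoly a).IsPrimitive ∧ Q a}.ncard : ℕ) : ℝ) := by
    have h2 : {a ∈ (Box n H : Set (Fin (n + 1) → ℤ)) | Q a}.ncard ≤
        ∑ c ∈ Finset.Icc 1 H, {a ∈ (Box n (H / c) : Set (Fin (n + 1) → ℤ)) |
        (toPoly a).IsPrimitive ∧ Q a}.ncard := by
      refine (Set.ncard_le_ncard hcov ?_).trans ?_
      · exact Set.Finite.biUnion (Finset.finite_toSet _) (fun c _ => (hfin _ _).image _)
      · refine (Finset.set_ncard_biUnion_le _ _).trans ?_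
        refine Finset.sum_le_sum fun c _ => ?_
        exact Set.ncard_image_le (hfin _ _)
    exact_mod_cast h2
  refine h1.trans ?_
  have h3 : ∀ c ∈ Finset.Icc 1 H, (({a ∈ (Box n (H / c) : Set (Fin (n + 1) → ℤ)) |
        (toPoly a).IsPrimitive ∧ Q a}.ncard : ℕ) : ℝ) ≤ C * (H : ℝ) ^ n * (1 / (c : ℝ) ^ 2) := by
    intro c hc
    rw [Finset.mem_Icc] at hc
    have hcpos : (0 : ℝ) < c := by exact_mod_cast hc.1
    have hd : 1 ≤ H / c := (Nat.one_le_div_iff (by omega)).mpr hc.2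
    refine (h (H / c) hd).trans ?_
    have h4 : ((H / c : ℕ) : ℝ) ≤ (H : ℝ) / c := Nat.cast_div_le
    have h5 : ((H / c : ℕ) : ℝ) ^ n ≤ ((H : ℝ) / c) ^ n := pow_le_pow_left₀ (by positivity) h4 n
    have h6 : ((H : ℝ) / c) ^ n ≤ (H : ℝ) ^ n * (1 / (c : ℝ) ^ 2) := by
      rw [div_pow, mul_one_div]
      apply div_le_div_of_nonneg_left (by positivity) (by positivity)
      exact pow_le_pow_right₀ (by exact_mod_cast hc.1) hn
    calc C * ((H / c : ℕ) : ℝ) ^ n ≤ C * ((H : ℝ) ^ n * (1 / (c : ℝ) ^ 2)) :=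
          mul_le_mul_of_nonneg_left (h5.trans h6) hC
      _ = _ := by ring
  refine (Finset.sum_le_sum h3).trans ?_
  rw [← Finset.mul_sum]
  have h7 : ∑ c ∈ Finset.Icc 1 H, (1 / (c : ℝ) ^ 2) ≤ 2 := by
    have h8 : ∀ N : ℕ, 1 ≤ N → ∑ c ∈ Finset.Icc 1 N, (1 / (c : ℝ) ^ 2) ≤ 2 - 1 / (N : ℝ) := by
      intro N hN
      induction N, hN using Nat.le_induction with
      | base => norm_num
      | succ N hN ih =>
        rw [Finset.sum_Icc_succ_top (by omega)]
        have hNpos : (0 : ℝ) < N := by exact_mod_cast hN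
        have : (1 : ℝ) / ((N + 1 : ℕ) : ℝ) ^ 2 ≤ 1 / N - 1 / ((N + 1 : ℕ) : ℝ) := by
          push_cast
          rw [div_sub_div _ _ (by positivity) (by positivity), div_le_div_iff₀ (by positivity) (by positivity)]
          nlinarith
        linarith
    have := h8 H hH
    have h9 : (0 : ℝ) ≤ 1 / (H : ℝ) := by positivity
    linarith
  calc C * (H : ℝ) ^ n * ∑ c ∈ Finset.Icc 1 H, (1 / (c : ℝ) ^ 2) ≤ C * (H : ℝ) ^ n * 2 :=
        mul_le_mul_of_nonneg_left h7 (by positivity)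
    _ = _ := by ring

end Pool.Agent.Helper12.VW
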