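import Pool.Agent.Helper12.VW.Assembly

import Pool.Agent.Helper12.VW.CaseB
import Pool.Agent.Helper12.VW.GalC

open Polynomial NumberField

namespace Pool.Agent.Helper12.VW

theorem box_filter_finite {n H : ℕ} (R : (Fin (n + 1) → ℤ) → Prop) :
    {a ∈ (Box n H : Set (Fin (n + 1) → ℤ)) | R a}.Finite :=
  (Box n H).finite_toSet.subset (fun _ ha => ha.1)

/-- Irreducible primitive bad polynomials, `n ≥ 4`. -/
theorem bad_irr_prim (n : ℕ) (hn : 4 ≤ n) : ∃ C : ℝ, 0 < C ∧ ∀ H : ℕ, 1 ≤ H →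
    ({a ∈ (Box n H : Set (Fin (n + 1) → ℤ)) | (toPoly a).IsPrimitive ∧ (a (Fin.last n) ≠ 0 ∧
      Irreducible (ratPoly a) ∧ ¬ Nonempty ((ratPoly a).Gal ≃* Equiv.Perm (Fin n)))}.ncard : ℝ)
      ≤ C * (H : ℝ) ^ n := by
  classical
  -- constants
  have hB : ∀ km : ℕ × ℕ, ∃ C : ℝ, 0 < C ∧ (2 ≤ km.1 → 1 ≤ km.2 → km.1 * km.2 = n →
      ∀ H : ℕ, 1 ≤ H →
      ({a ∈ (Box n H : Set (Fin (n + 1) → ℤ)) | a (Fin.last n) ≠ 0 ∧
      ∃ (L : Type) (_ : Field L) (_ : NumberField L), Module.finrank ℚ L = km.1 ∧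
        (∀ p : ℕ, p.Prime → n < p → InInd a p (km.2 * vD L p)) ∧
        (km.2 = 1 → ∀ p : ℕ, p.Prime → vD L p ≠ 1) ∧
        (H : ℝ) ^ thr km.2 <
          ∏ p ∈ (discr L).natAbs.primeFactors.filter (n < ·), (p : ℝ) ^ vD L p}.ncard : ℝ)
      ≤ C * (H : ℝ) ^ n) := by
    intro km
    by_cases h : 2 ≤ km.1 ∧ 1 ≤ km.2 ∧ km.1 * km.2 = n
    · obtain ⟨C, hC, hb⟩ := caseB' km.1 km.2 n h.1 h.2.1 h.2.2 (by omega)
      exact ⟨C, hC, fun _ _ _ => hb⟩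
    · exact ⟨1, one_pos, fun h1 h2 h3 => absurd ⟨h1, h2, h3⟩ h⟩
  choose CB hCB hBb using hB
  have hD : ∀ k : ℕ, ∃ c : ℕ, 0 < c ∧ ∀ (K : Type) [Field K] [NumberField K],
    Module.finrank ℚ K = k →
    (discr K).natAbs ≤ c * ∏ p ∈ (discr K).natAbs.primeFactors.filter (n < ·), p ^ vD K p :=
    fun k => discr_small_primes k n
  choose cD hcD hDb using hD
  have hA : ∀ km : ℕ × ℕ, ∃ C : ℝ, 0 < C ∧ (2 ≤ km.1 → 1 ≤ km.2 → km.1 * km.2 = n →
      ∀ H : ℕ, 1 ≤ H →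
      ({a ∈ (Box n H : Set (Fin (n + 1) → ℤ)) | a (Fin.last n) ≠ 0 ∧ (toPoly a).IsPrimitive ∧
      ∃ (L : Type) (_ : Field L) (_ : NumberField L), Module.finrank ℚ L = km.1 ∧ IsPrim L ∧
        NormForm a L km.2 ∧ (km.2 = 1 → ∀ p : ℕ, p.Prime → vD L p ≠ 1) ∧
        |(discr L : ℝ)| ≤ cD km.1 * (H : ℝ) ^ thr km.2}.ncard : ℝ) ≤ C * (H : ℝ) ^ n) := by
    intro km
    by_cases h : 2 ≤ km.1 ∧ 1 ≤ km.2 ∧ km.1 * km.2 = n
    · obtain ⟨C, hC, hb⟩ := caseA km.1 km.2 n h.1 h.2.1 h.2.2 hn (cD km.1)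
        (by exact_mod_cast hcD km.1)
      exact ⟨C, hC, fun _ _ _ => hb⟩
    · exact ⟨1, one_pos, fun h1 h2 h3 => absurd ⟨h1, h2, h3⟩ h⟩
  choose CA hCA hAb using hA
  have hne : (n, 1) ∈ n.divisorsAntidiagonal := by
    rw [Nat.mem_divisorsAntidiagonal]; exact ⟨by simp, by omega⟩
  refine ⟨∑ km ∈ n.divisorsAntidiagonal, (CA km + CB km), ?_, fun H hH => ?_⟩
  · exact Finset.sum_pos (fun km _ => add_pos (hCA km) (hCB km)) ⟨_, hne⟩
  have hH1 : (1 : ℝ) ≤ H := by exact_mod_cast hH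
  -- the pieces
  set SA : ℕ × ℕ → Set (Fin (n + 1) → ℤ) := fun km =>
    if 2 ≤ km.1 ∧ 1 ≤ km.2 ∧ km.1 * km.2 = n then
    {a ∈ (Box n H : Set (Fin (n + 1) → ℤ)) | a (Fin.last n) ≠ 0 ∧ (toPoly a).IsPrimitive ∧
      ∃ (L : Type) (_ : Field L) (_ : NumberField L), Module.finrank ℚ L = km.1 ∧ IsPrim L ∧
        NormForm a L km.2 ∧ (km.2 = 1 → ∀ p : ℕ, p.Prime → vD L p ≠ 1) ∧
        |(discr L : ℝ)| ≤ cD km.1 * (H : ℝ) ^ thr km.2} else ∅ with hSA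
  set SB : ℕ × ℕ → Set (Fin (n + 1) → ℤ) := fun km =>
    if 2 ≤ km.1 ∧ 1 ≤ km.2 ∧ km.1 * km.2 = n then
    {a ∈ (Box n H : Set (Fin (n + 1) → ℤ)) | a (Fin.last n) ≠ 0 ∧
      ∃ (L : Type) (_ : Field L) (_ : NumberField L), Module.finrank ℚ L = km.1 ∧
        (∀ p : ℕ, p.Prime → n < p → InInd a p (km.2 * vD L p)) ∧
        (km.2 = 1 → ∀ p : ℕ, p.Prime → vD L p ≠ 1) ∧
        (H : ℝ) ^ thr km.2 <
          ∏ p ∈ (discr L).natAbs.primeFactors.filter (n < ·), (p : ℝ) ^ vD L p} else ∅ with hSB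
  have hsub : {a ∈ (Box n H : Set (Fin (n + 1) → ℤ)) | (toPoly a).IsPrimitive ∧
      (a (Fin.last n) ≠ 0 ∧
      Irreducible (ratPoly a) ∧ ¬ Nonempty ((ratPoly a).Gal ≃* Equiv.Perm (Fin n)))} ⊆
      ⋃ km ∈ n.divisorsAntidiagonal, (SA km ∪ SB km) := by
    rintro a ⟨haB, hprim, hlast, hirr, hbad⟩
    obtain ⟨k, m, L, _, _, hk, hm, hkm, hL, hLp, hnf, hInd, h1⟩ :=
      struct (by omega) a hlast hirr hbad
    simp only [Set.mem_iUnion]
    refine ⟨(k, m), ?_, ?_⟩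
    · rw [Nat.mem_divisorsAntidiagonal]; exact ⟨hkm, by omega⟩
    · by_cases hlt : (H : ℝ) ^ thr m <
          ∏ p ∈ (discr L).natAbs.primeFactors.filter (n < ·), (p : ℝ) ^ vD L p
      · right
        rw [hSB]
        simp only
        rw [if_pos ⟨hk, hm, hkm⟩]
        exact ⟨haB, hlast, L, inferInstance, inferInstance, hL, hInd, h1, hlt⟩
      · left
        rw [hSA]
        simp only
        rw [if_pos ⟨hk, hm, hkm⟩]
        refine ⟨haB, hlast, hprim, L, inferInstance, inferInstance, hL, hLp, hnf, h1, ?_⟩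
        push Not at hlt
        have h3 := hDb k L hL
        have h4 : |(discr L : ℝ)| = (((discr L).natAbs : ℕ) : ℝ) := by
          rw [Nat.cast_natAbs, Int.cast_abs]
        rw [h4]
        have h5 : (((discr L).natAbs : ℕ) : ℝ) ≤ cD k *
            ∏ p ∈ (discr L).natAbs.primeFactors.filter (n < ·), (p : ℝ) ^ vD L p := by
          exact_mod_cast h3
        refine h5.trans ?_
        exact mul_le_mul_of_nonneg_left hlt (by positivity)
  have hfinA : ∀ km, (SA km).Finite := by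
    intro km
    rw [hSA]; simp only
    split_ifs
    · exact box_filter_finite _
    · exact Set.finite_empty
  have hfinB : ∀ km, (SB km).Finite := by
    intro km
    rw [hSB]; simp only
    split_ifs
    · exact box_filter_finite _
    · exact Set.finite_empty
  have hcA : ∀ km, ((SA km).ncard : ℝ) ≤ CA km * (H : ℝ) ^ n := by
    intro km
    rw [hSA]; simp only
    split_ifs with h
    · exact hAb km h.1 h.2.1 h.2.2 H hH
    · rw [Set.ncard_empty]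
      have := hCA km
      simp only [Nat.cast_zero]
      positivity
  have hcB : ∀ km, ((SB km).ncard : ℝ) ≤ CB km * (H : ℝ) ^ n := by
    intro km
    rw [hSB]; simp only
    split_ifs with h
    · exact hBb km h.1 h.2.1 h.2.2 H hH
    · rw [Set.ncard_empty]
      have := hCB km
      simp only [Nat.cast_zero]
      positivity
  have h1 := Set.ncard_le_ncard hsub
    (Set.Finite.biUnion (Finset.finite_toSet _) (fun km _ => (hfinA km).union (hfinB km)))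
  have h2 := h1.trans (Finset.set_ncard_biUnion_le _ _)
  have h3 : (({a ∈ (Box n H : Set (Fin (n + 1) → ℤ)) | (toPoly a).IsPrimitive ∧
      (a (Fin.last n) ≠ 0 ∧
      Irreducible (ratPoly a) ∧ ¬ Nonempty ((ratPoly a).Gal ≃* Equiv.Perm (Fin n)))}.ncard : ℕ) : ℝ)
      ≤ ∑ km ∈ n.divisorsAntidiagonal, (((SA km ∪ SB km).ncard : ℕ) : ℝ) := by
    exact_mod_cast h2
  refine h3.trans ?_
  rw [Finset.sum_mul]
  refine Finset.sum_le_sum fun km _ => ?_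
  have h4 : (((SA km ∪ SB km).ncard : ℕ) : ℝ) ≤ (SA km).ncard + (SB km).ncard := by
    exact_mod_cast Set.ncard_union_le _ _
  have := hcA km
  have := hcB km
  linarith

theorem last_zero_count (n H : ℕ) (hH : 1 ≤ H) :
    ({a ∈ (Box n H : Set (Fin (n + 1) → ℤ)) | a (Fin.last n) = 0}.ncard : ℝ)
      ≤ 3 ^ n * (H : ℝ) ^ n := by
  classical
  have hsub : {a ∈ (Box n H : Set (Fin (n + 1) → ℤ)) | a (Fin.last n) = 0} ⊆
      (fun b : Fin n → ℤ => (Fin.snoc b 0 : Fin (n + 1) → ℤ)) ''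
        (Fintype.piFinset (fun _ : Fin n => Finset.Icc (-(H : ℤ)) (H : ℤ)) : Set (Fin n → ℤ)) := by
    rintro a ⟨haB, ha0⟩
    refine ⟨fun i => a i.castSucc, ?_, ?_⟩
    · simp only [Finset.mem_coe, Fintype.mem_piFinset, Finset.mem_Icc]
      intro i
      exact abs_le.mp (mem_Box.mp (Finset.mem_coe.mp haB) i.castSucc)
    · funext i
      refine Fin.lastCases ?_ (fun j => ?_) i
      · simp [ha0]
      · simp
  have h1 := Set.ncard_le_ncard hsub ((Finset.finite_toSet _).image _)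
  have h2 := h1.trans (Set.ncard_image_le (Finset.finite_toSet _))
  rw [Set.ncard_coe_finset, Fintype.card_piFinset] at h2
  simp only [Int.card_Icc, Finset.prod_const, Finset.card_univ, Fintype.card_fin] at h2
  have h3 : ((H : ℤ) + 1 - -(H : ℤ)).toNat = 2 * H + 1 := by omega
  rw [h3] at h2
  have h4 : (({a ∈ (Box n H : Set (Fin (n + 1) → ℤ)) | a (Fin.last n) = 0}.ncard : ℕ) : ℝ) ≤
      ((2 * H + 1 : ℕ) : ℝ) ^ n := by exact_mod_cast h2
  refine h4.trans ?_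
  rw [← mul_pow]
  apply pow_le_pow_left₀ (by positivity)
  have : (1 : ℝ) ≤ H := by exact_mod_cast hH
  push_cast
  linarith

/-- The irreducible bad polynomials. -/
theorem bad_irr (n : ℕ) (hn : 3 ≤ n) : ∃ C : ℝ, 0 < C ∧ ∀ H : ℕ, 1 ≤ H →
    ({a ∈ (Box n H : Set (Fin (n + 1) → ℤ)) | a (Fin.last n) ≠ 0 ∧
      Irreducible (ratPoly a) ∧ ¬ Nonempty ((ratPoly a).Gal ≃* Equiv.Perm (Fin n))}.ncard : ℝ)
      ≤ C * (H : ℝ) ^ n := by
  rcases Nat.eq_or_lt_of_le hn with h3 | h4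
  · subst h3
    obtain ⟨C, hC, h⟩ := cubic_count
    refine ⟨C, hC, fun H hH => le_trans ?_ (h H hH)⟩
    have : {a ∈ (Box 3 H : Set (Fin (3 + 1) → ℤ)) | a (Fin.last 3) ≠ 0 ∧
      Irreducible (ratPoly a) ∧ ¬ Nonempty ((ratPoly a).Gal ≃* Equiv.Perm (Fin 3))} ⊆
      {a ∈ (Box 3 H : Set (Fin 4 → ℤ)) | a 3 ≠ 0 ∧ ∃ y : ℤ, y ≠ 0 ∧
      y ^ 2 = a 2 ^ 2 * a 1 ^ 2 - 4 * a 3 * a 1 ^ 3 - 4 * a 2 ^ 3 * a 0
      - 27 * a 3 ^ 2 * a 0 ^ 2 + 18 * a 3 * a 2 * a 1 * a 0} := by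
      rintro a ⟨haB, h1, h2, h3⟩
      exact ⟨haB, h1, cubic_square_discr a h1 h2 h3⟩
    exact_mod_cast Set.ncard_le_ncard this (box_filter_finite _)
  · obtain ⟨C, hC, h⟩ := bad_irr_prim n h4
    refine ⟨2 * C, by positivity, ?_⟩
    apply content_reduction (by omega) (fun a => a (Fin.last n) ≠ 0 ∧
      Irreducible (ratPoly a) ∧ ¬ Nonempty ((ratPoly a).Gal ≃* Equiv.Perm (Fin n))) ?_ ?_ C hC.le h
    · rintro c b hc ⟨h1, h2, h3⟩
      have hpoly : ratPoly (fun i => (c : ℤ) * b i) = Polynomial.C (c : ℚ) * ratPoly b := by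
        unfold ratPoly
        rw [toPoly_smul, Polynomial.map_mul, map_C]
        simp
      have hc0 : (c : ℚ) ≠ 0 := by positivity
      have hassoc : Associated (ratPoly b) (Polynomial.C (c : ℚ) * ratPoly b) := by
        rw [mul_comm]
        exact (associated_mul_unit_right _ _ (isUnit_C.mpr (isUnit_iff_ne_zero.mpr hc0)))
      rw [hpoly] at h2 h3
      refine ⟨fun h => h1 (by simp [h]), (hassoc.irreducible_iff).mpr h2, ?_⟩
      intro h4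
      apply h3
      obtain ⟨e⟩ := gal_C_mul (c : ℚ) hc0 (ratPoly b)
      exact ⟨e.trans h4.some⟩
    · rintro a ⟨h1, _⟩ h0
      apply h1; rw [h0]; rfl

/-- All bad coefficient vectors, `n ≥ 3`. -/
theorem bad_bound (n : ℕ) (hn : 3 ≤ n) : ∃ C : ℝ, 0 < C ∧ ∀ H : ℕ, 1 ≤ H →
    ({a ∈ (Box n H : Set (Fin (n + 1) → ℤ)) |
      ¬ (a (Fin.last n) ≠ 0 ∧ Nonempty ((ratPoly a).Gal ≃* Equiv.Perm (Fin n)))}.ncard : ℝ)
      ≤ C * (H : ℝ) ^ n := by
  classical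
  obtain ⟨C1, hC1, h1⟩ := bad_irr n hn
  obtain ⟨C2, hC2, h2⟩ := reducible_count n hn
  refine ⟨C1 + C2 + 3 ^ n, by positivity, fun H hH => ?_⟩
  have hsub : {a ∈ (Box n H : Set (Fin (n + 1) → ℤ)) |
      ¬ (a (Fin.last n) ≠ 0 ∧ Nonempty ((ratPoly a).Gal ≃* Equiv.Perm (Fin n)))} ⊆
      ({a ∈ (Box n H : Set (Fin (n + 1) → ℤ)) | a (Fin.last n) ≠ 0 ∧
      Irreducible (ratPoly a) ∧ ¬ Nonempty ((ratPoly a).Gal ≃* Equiv.Perm (Fin n))} ∪
      {a ∈ (Box n H : Set (Fin (n + 1) → ℤ)) | a (Fin.last n) ≠ 0 ∧ ¬ Irreducible (ratPoly a)}) ∪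
      {a ∈ (Box n H : Set (Fin (n + 1) → ℤ)) | a (Fin.last n) = 0} := by
    rintro a ⟨haB, hbad⟩
    by_cases h0 : a (Fin.last n) = 0
    · exact Or.inr ⟨haB, h0⟩
    · left
      by_cases hirr : Irreducible (ratPoly a)
      · exact Or.inl ⟨haB, h0, hirr, fun h => hbad ⟨h0, h⟩⟩
      · exact Or.inr ⟨haB, h0, hirr⟩
  have h3 := Set.ncard_le_ncard hsub
    (((box_filter_finite _).union (box_filter_finite _)).union (box_filter_finite _))
  have h4 := h3.trans ((Set.ncard_union_le _ _).trans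
    (Nat.add_le_add_right (Set.ncard_union_le _ _) _))
  have h5 := h1 H hH
  have h6 := h2 H hH
  have h7 := last_zero_count n H hH
  have h8 : (({a ∈ (Box n H : Set (Fin (n + 1) → ℤ)) |
      ¬ (a (Fin.last n) ≠ 0 ∧ Nonempty ((ratPoly a).Gal ≃* Equiv.Perm (Fin n)))}.ncard : ℕ) : ℝ) ≤
      ({a ∈ (Box n H : Set (Fin (n + 1) → ℤ)) | a (Fin.last n) ≠ 0 ∧
      Irreducible (ratPoly a) ∧ ¬ Nonempty ((ratPoly a).Gal ≃* Equiv.Perm (Fin n))}.ncard : ℝ) +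
      ({a ∈ (Box n H : Set (Fin (n + 1) → ℤ)) | a (Fin.last n) ≠ 0 ∧
        ¬ Irreducible (ratPoly a)}.ncard : ℝ) +
      ({a ∈ (Box n H : Set (Fin (n + 1) → ℤ)) | a (Fin.last n) = 0}.ncard : ℝ) := by
    exact_mod_cast h4
  calc _ ≤ _ := h8
    _ ≤ C1 * (H : ℝ) ^ n + C2 * (H : ℝ) ^ n + 3 ^ n * (H : ℝ) ^ n := by linarith
    _ = _ := by ring

end Pool.Agent.Helper12.VW
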